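import Mathlib

/-!
Vertices of small degree in connected 3-edge-critical graphs.
-/

namespace Pool.Agent.X7.ThreeCrit

variable {V : Type*}

/-- `u` dominates `z`. -/
def Cl (G : SimpleGraph V) (u z : V) : Prop := u = z ∨ G.Adj u z

theorem cl_comm {G : SimpleGraph V} {u z : V} : Cl G u z ↔ Cl G z u := by
  unfold Cl
  rw [G.adj_comm, eq_comm]

theorem cl_refl (G : SimpleGraph V) (u : V) : Cl G u u := Or.inl rfl

/-- `{u, w}` dominates everything except `v`. -/
def Prv (G : SimpleGraph V) (u w v : V) : Prop :=
  (∀ z, z ≠ v → Cl G u z ∨ Cl G w z) ∧ ¬ Cl G u v ∧ ¬ Cl G w v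

open Classical in
/-- Closed neighbourhood. -/
noncomputable def Ncl [Fintype V] (G : SimpleGraph V) (u : V) : Finset V :=
  Finset.univ.filter (fun z => Cl G u z)

theorem mem_Ncl [Fintype V] {G : SimpleGraph V} {u z : V} : z ∈ Ncl G u ↔ Cl G u z := by
  classical
  unfold Ncl
  simp

theorem prv_injOn {G : SimpleGraph V} {a : V} {E : Finset V} {w : V → V}
    (hE : ∀ x ∈ E, ¬ Cl G a x) (hw : ∀ x ∈ E, Prv G a (w x) x) : Set.InjOn w E := by
  intro x hx y hy hxy
  by_contra hne
  have h1 := (hw x hx).1 y (fun h => hne h.symm)
  rcases h1 with h1 | h1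
  · exact hE y hy h1
  · rw [hxy] at h1
    exact (hw y hy).2.2 h1

theorem even_card_of_invol [DecidableEq V] (s : Finset V) (f : V → V) (h1 : ∀ a ∈ s, f a ∈ s)
    (h2 : ∀ a ∈ s, f (f a) = a) (h3 : ∀ a ∈ s, f a ≠ a) : Even s.card := by
  have h := Finset.prod_involution (s := s) (f := fun _ => (-1 : ℤ)) (fun a _ => f a)
    (fun a _ => by norm_num) (fun a ha _ => h3 a ha) (fun a ha => h1 a ha) (fun a ha => h2 a ha)
  rw [Finset.prod_const] at h
  by_contra hcon
  rw [Nat.not_even_iff_odd] at hcon
  rw [hcon.neg_one_pow] at h
  norm_num at h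

theorem core [Fintype V] [DecidableEq V] (G : SimpleGraph V) (r : ℕ) (hr : 4 ≤ r) (hre : Even r)
    (hconn : G.Connected) (hn : 2 * (r + 1) ^ 2 + 2 * (r + 1) < Fintype.card V)
    (hdom : ∀ u w, ∃ z, ¬ Cl G u z ∧ ¬ Cl G w z)
    (hcrit : ∀ u v, u ≠ v → ¬ G.Adj u v → ∃ w, Prv G u w v ∨ Prv G v w u)
    (S : Finset V) (hS : S.card = r + 1) (hdeg : ∀ a ∈ S, (Ncl G a).card ≤ r + 1) : False := by
  classical
  have hsq : 2 * (r + 1) + 1 ≤ 2 * (r + 1) ^ 2 + 2 * (r + 1) := by nlinarith
  -- the closed neighbourhood of `S` and the generic vertices
  set B : Finset V := S.biUnion (fun a => Ncl G a) with hB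
  have hBcard : B.card ≤ (r + 1) ^ 2 := by
    calc B.card ≤ ∑ a ∈ S, (Ncl G a).card := Finset.card_biUnion_le
      _ ≤ ∑ a ∈ S, (r + 1) := Finset.sum_le_sum hdeg
      _ = (r + 1) ^ 2 := by rw [Finset.sum_const, hS, smul_eq_mul, pow_two]
  set R : Finset V := Finset.univ \ B with hR
  have hRcard : R.card + B.card = Fintype.card V := by
    rw [hR, Finset.card_sdiff_add_card_eq_card (Finset.subset_univ _), Finset.card_univ]
  have hgen : ∀ x, x ∈ R ↔ ∀ a ∈ S, ¬ Cl G a x := by
    intro x
    rw [hR, Finset.mem_sdiff, hB, Finset.mem_biUnion]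
    simp only [Finset.mem_univ, true_and, not_exists, not_and, mem_Ncl]
  -- F1
  have F1 : ∀ a ∈ S, ∀ w x, Prv G a w x → w ∉ S := by
    intro a ha w x hp hw
    have h1 : (Finset.univ : Finset V) ⊆ insert x (Ncl G a ∪ Ncl G w) := by
      intro z _
      rw [Finset.mem_insert, Finset.mem_union, mem_Ncl, mem_Ncl]
      by_cases hz : z = x
      · exact Or.inl hz
      · exact Or.inr (hp.1 z hz)
    have h2 := Finset.card_le_card h1
    have h3 := Finset.card_insert_le x (Ncl G a ∪ Ncl G w)
    have h4 := Finset.card_union_le (Ncl G a) (Ncl G w)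
    have h5 := hdeg a ha
    have h6 := hdeg w hw
    rw [Finset.card_univ] at h2
    omega
  -- dichotomy for generic vertices
  have hdich : ∀ a ∈ S, ∀ x ∈ R, (∃ w, Prv G a w x) ∨ (∃ w, Prv G x w a) := by
    intro a ha x hx
    have h1 := (hgen x).1 hx a ha
    unfold Cl at h1
    push Not at h1
    obtain ⟨w, hw | hw⟩ := hcrit a x h1.1 h1.2
    · exact Or.inl ⟨w, hw⟩
    · exact Or.inr ⟨w, hw⟩
  -- F2
  have F2 : ∀ a ∈ S, (∃ a' ∈ S, ¬ Cl G a a') →
      R.card ≤ (R.filter (fun x => ∃ w, Prv G x w a)).card + (r + 1) := by
    rintro a ha ⟨a', ha', hna⟩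
    have h1 : (R.filter (fun x => ¬ ∃ w, Prv G x w a)).card ≤ r + 1 := by
      have h2 : ∀ x ∈ R.filter (fun x => ¬ ∃ w, Prv G x w a), ∃ w, Prv G a w x := by
        intro x hx
        rw [Finset.mem_filter] at hx
        rcases hdich a ha x hx.1 with h | h
        · exact h
        · exact absurd h hx.2
      choose! w hw using h2
      have hinj := prv_injOn (G := G) (a := a) (w := w)
        (E := R.filter (fun x => ¬ ∃ w, Prv G x w a))
        (fun x hx => by
          rw [Finset.mem_filter] at hx
          exact (hgen x).1 hx.1 a ha) hw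
      have h3 : ∀ x ∈ R.filter (fun x => ¬ ∃ w, Prv G x w a), w x ∈ Ncl G a' := by
        intro x hx
        have hx' := (Finset.mem_filter.1 hx).1
        have hne : a' ≠ x := by
          rintro rfl
          exact (hgen a').1 hx' a' ha' (cl_refl G a')
        rcases (hw x hx).1 a' hne with h | h
        · exact absurd h hna
        · rw [mem_Ncl, cl_comm]
          exact h
      exact (Finset.card_le_card_of_injOn w h3 hinj).trans (hdeg a' ha')
    have h2 := Finset.card_filter_add_card_filter_not (s := R) (fun x => ∃ w, Prv G x w a)
    omega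
  have hRbig : (r + 1) ^ 2 + 2 * (r + 1) < R.card := by omega
  -- a vertex of S with a neighbour outside S has a non-neighbour in S
  have F4 : ∀ a ∈ S, (∃ z, z ∉ S ∧ Cl G a z) → ∃ a' ∈ S, ¬ Cl G a a' := by
    rintro a ha ⟨z, hz, haz⟩
    by_contra hcon
    push Not at hcon
    have h1 : insert z S ⊆ Ncl G a := by
      intro y hy
      rw [Finset.mem_insert] at hy
      rw [mem_Ncl]
      rcases hy with rfl | hy
      · exact haz
      · exact hcon y hy
    have h2 := Finset.card_le_card h1
    rw [Finset.card_insert_of_notMem hz] at h2
    have := hdeg a ha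
    omega
  -- crossing edges
  have hcross : ∀ X : Finset V, X.Nonempty → X ≠ Finset.univ →
      ∃ a ∈ X, ∃ z, z ∉ X ∧ G.Adj a z := by
    rintro X ⟨p, hp⟩ hX
    obtain ⟨q, hq⟩ : ∃ q, q ∉ X := by
      by_contra hcon
      push Not at hcon
      exact hX (Finset.eq_univ_iff_forall.2 hcon)
    obtain ⟨walk⟩ := hconn.preconnected p q
    obtain ⟨d, -, h1, h2⟩ := walk.exists_boundary_dart (X : Set V) (by exact_mod_cast hp)
      (by exact_mod_cast hq)
    exact ⟨d.fst, by exact_mod_cast h1, d.snd, by exact_mod_cast h2, d.adj⟩
  have hSne : S.Nonempty := by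
    rw [← Finset.card_pos]
    omega
  by_cases hU : ∃ u ∈ S, ∀ c ∈ S, Cl G u c
  · -- Case II
    obtain ⟨u, hu, huc⟩ := hU
    have hNu : Ncl G u = S := by
      symm
      apply Finset.eq_of_subset_of_card_le
      · intro c hc
        rw [mem_Ncl]
        exact huc c hc
      · rw [hS]
        exact hdeg u hu
    have hNu' : ∀ z, Cl G u z → z ∈ S := by
      intro z hz
      rw [← hNu, mem_Ncl]
      exact hz
    obtain ⟨a, ha, z, hz, haz⟩ := hcross S hSne (by
      intro h
      rw [h, Finset.card_univ] at hS
      omega)
    obtain ⟨a', ha', hna⟩ := F4 a ha ⟨z, hz, Or.inr haz⟩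
    have hua : u ≠ a := by
      rintro rfl
      exact hna (huc a' ha')
    by_cases hIIa : ∀ x ∈ R, ∃ y, Prv G u y x
    · choose! y hy using hIIa
      have hinj : Set.InjOn y (R.filter (fun x => ∃ w, Prv G x w a)) :=
        prv_injOn (a := u) (fun x hx => (hgen x).1 (Finset.mem_filter.1 hx).1 u hu)
          (fun x hx => hy x (Finset.mem_filter.1 hx).1)
      have hmap : ∀ x ∈ R.filter (fun x => ∃ w, Prv G x w a), y x ∈ B := by
        intro x hx
        rw [Finset.mem_filter] at hx
        obtain ⟨hxR, w, hw⟩ := hx
        have h1 := hy x hxR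
        have hwS : w ∈ S := by
          rcases hw.1 u hua with h | h
          · rw [cl_comm] at h
            exact absurd h ((hgen x).1 hxR u hu)
          · rw [cl_comm] at h
            exact hNu' w h
        have hyS : y x ∉ S := F1 u hu _ _ h1
        have hne : y x ≠ a := fun h => hyS (h ▸ ha)
        rcases hw.1 (y x) hne with h | h
        · rw [cl_comm] at h
          exact absurd h h1.2.2
        · rw [hB, Finset.mem_biUnion]
          exact ⟨w, hwS, mem_Ncl.2 h⟩
      have h1 := Finset.card_le_card_of_injOn y hmap hinj
      have h2 := F2 a ha ⟨a', ha', hna⟩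
      omega
    · push Not at hIIa
      obtain ⟨x0, hx0, hx0'⟩ := hIIa
      have h0 : ∃ y0, Prv G x0 y0 u := by
        rcases hdich u hu x0 hx0 with ⟨w, h⟩ | h
        · exact absurd h (hx0' w)
        · exact h
      obtain ⟨y0, hy0⟩ := h0
      have hy0S : y0 ∉ S := by
        intro h
        exact hy0.2.2 (cl_comm.1 (huc y0 h))
      have hy0b : ∀ b ∈ S, b ≠ u → Cl G y0 b := by
        intro b hb hbu
        rcases hy0.1 b hbu with h | h
        · rw [cl_comm] at h
          exact absurd h ((hgen x0).1 hx0 b hb)
        · exact h
      have hf : ∀ a ∈ S.erase u, ∃ w, w ∈ S ∧ ¬ Cl G w a ∧ ∀ b ∈ S, b ≠ a → Cl G w b := by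
        intro b hb
        rw [Finset.mem_erase] at hb
        obtain ⟨c, hc, hbc⟩ := F4 b hb.2 ⟨y0, hy0S, cl_comm.1 (hy0b b hb.2 hb.1)⟩
        have h2 := F2 b hb.2 ⟨c, hc, hbc⟩
        have h3 : 0 < (R.filter (fun x => ∃ w, Prv G x w b)).card := by omega
        obtain ⟨x, hx⟩ := Finset.card_pos.1 h3
        rw [Finset.mem_filter] at hx
        obtain ⟨hxR, w, hw⟩ := hx
        have hwb : ∀ c ∈ S, c ≠ b → Cl G w c := by
          intro c hc hcb
          rcases hw.1 c hcb with h | h
          · rw [cl_comm] at h
            exact absurd h ((hgen x).1 hxR c hc)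
          · exact h
        refine ⟨w, hNu' w (cl_comm.1 (hwb u hu (Ne.symm hb.1))), hw.2.2, hwb⟩
      choose! f hfS hfa hfb using hf
      have hfu : ∀ a ∈ S.erase u, f a ∈ S.erase u := by
        intro b hb
        rw [Finset.mem_erase]
        refine ⟨?_, hfS b hb⟩
        intro h
        apply hfa b hb
        rw [h]
        exact huc b (Finset.mem_of_mem_erase hb)
      have hff : ∀ a ∈ S.erase u, f (f a) = a := by
        intro b hb
        by_contra hne
        have h1 := hfb b hb (f (f b)) (hfS _ (hfu b hb)) hne
        exact hfa (f b) (hfu b hb) (cl_comm.1 h1)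
      -- closed neighbourhoods
      have hNa : ∀ a ∈ S.erase u, ∀ z, Cl G a z → z ∈ S ∨ z = y0 := by
        intro b hb
        have h1 : insert y0 (S.erase (f b)) ⊆ Ncl G b := by
          intro z hz
          rw [Finset.mem_insert, Finset.mem_erase] at hz
          rw [mem_Ncl]
          rcases hz with rfl | ⟨hz1, hz2⟩
          · rw [Finset.mem_erase] at hb
            exact cl_comm.1 (hy0b b hb.2 hb.1)
          · have h2 := hfb (f b) (hfu b hb) z hz2 hz1
            rw [hff b hb] at h2
            exact h2
        have h2 : insert y0 (S.erase (f b)) = Ncl G b := by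
          apply Finset.eq_of_subset_of_card_le h1
          rw [Finset.card_insert_of_notMem (fun h => hy0S (Finset.mem_of_mem_erase h)),
            Finset.card_erase_of_mem (hfS b hb), hS]
          exact hdeg b (Finset.mem_of_mem_erase hb)
        intro z hz
        rw [← mem_Ncl, ← h2, Finset.mem_insert, Finset.mem_erase] at hz
        rcases hz with h | h
        · exact Or.inr h
        · exact Or.inl h.2
      have hNall : ∀ b ∈ S, ∀ z, Cl G b z → z ∈ S ∨ z = y0 := by
        intro b hb z hz
        by_cases hbu : b = u
        · subst hbu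
          exact Or.inl (hNu' z hz)
        · exact hNa b (Finset.mem_erase.2 ⟨hbu, hb⟩) z hz
      obtain ⟨p, hp, z, hz, hpz⟩ := hcross (insert y0 S) (Finset.insert_nonempty _ _) (by
        intro h
        have h1 : (insert y0 S).card = Fintype.card V := by rw [h, Finset.card_univ]
        rw [Finset.card_insert_of_notMem hy0S, hS] at h1
        omega)
      rw [Finset.mem_insert, not_or] at hz
      have hp0 : p = y0 := by
        rw [Finset.mem_insert] at hp
        rcases hp with h | h
        · exact h
        · rcases hNall p h z (Or.inr hpz) with h1 | h1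
          · exact absurd h1 hz.2
          · exact absurd h1 hz.1
      subst hp0
      have hzgen : ∀ b ∈ S, ¬ Cl G b z := by
        intro b hb h
        rcases hNall b hb z h with h1 | h1
        · exact hz.2 h1
        · exact hz.1 h1
      -- pick a in S \ {u}
      have haS : a ∈ S.erase u := Finset.mem_erase.2 ⟨Ne.symm hua, ha⟩
      have haz : a ≠ z := fun h => hz.2 (h ▸ ha)
      have hnadj : ¬ G.Adj a z := fun h => hzgen a ha (Or.inr h)
      obtain ⟨w, hw | hw⟩ := hcrit a z haz hnadj
      · have hwS := F1 a ha w z hw
        have h1 : Cl G w (f a) := by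
          rcases hw.1 (f a) (fun h => hz.2 (h ▸ hfS a haS)) with h | h
          · exact absurd (cl_comm.1 h) (hfa a haS)
          · exact h
        rcases hNall (f a) (hfS a haS) w (cl_comm.1 h1) with h | h
        · exact hwS h
        · rw [h] at hw
          exact hw.2.2 (Or.inr hpz)
      · have hwS : w ∈ S := by
          rcases hw.1 u hua with h | h
          · exact absurd (cl_comm.1 h) (hzgen u hu)
          · exact hNu' w (cl_comm.1 h)
        obtain ⟨t, ht1, ht2⟩ := hdom u z
        by_cases htS : t ∈ S
        · exact ht1 (huc t htS)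
        · by_cases htp : t = p
          · subst htp
            exact ht2 (Or.inr hpz.symm)
          · have hta : t ≠ a := fun h => htS (h ▸ ha)
            rcases hw.1 t hta with h | h
            · exact ht2 h
            · rcases hNall w hwS t h with h1 | h1
              · exact htS h1
              · exact htp h1
  · -- Case I
    push Not at hU
    have hf : ∀ a ∈ S, ∃ w, ¬ Cl G w a ∧ ∀ b ∈ S, b ≠ a → Cl G w b := by
      intro b hb
      have h2 := F2 b hb (hU b hb)
      have h3 : 0 < (R.filter (fun x => ∃ w, Prv G x w b)).card := by omega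
      obtain ⟨x, hx⟩ := Finset.card_pos.1 h3
      rw [Finset.mem_filter] at hx
      obtain ⟨hxR, w, hw⟩ := hx
      refine ⟨w, hw.2.2, ?_⟩
      intro c hc hcb
      rcases hw.1 c hcb with h | h
      · rw [cl_comm] at h
        exact absurd h ((hgen x).1 hxR c hc)
      · exact h
    choose! f hfa hfb using hf
    have hinj : Set.InjOn f S := by
      intro a ha b hb hab
      by_contra hne
      have h1 := hfb a ha b hb (fun h => hne h.symm)
      rw [hab] at h1
      exact hfa b hb h1
    set AT : Finset V := S.filter (fun a => f a ∉ S) with hAT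
    set AS : Finset V := S.filter (fun a => f a ∈ S) with hAS
    have hATAS : AS.card + AT.card = r + 1 := by
      rw [← hS, hAS, hAT]
      exact Finset.card_filter_add_card_filter_not _
    have hcount : ∀ b ∈ S, (AT.erase b).card ≤ (S.filter (fun c => ¬ Cl G b c)).card := by
      intro b hb
      have h1 : S.filter (fun c => Cl G b c) ∪ (AT.erase b).image f ⊆ Ncl G b := by
        intro z hz
        rw [Finset.mem_union, Finset.mem_filter, Finset.mem_image] at hz
        rw [mem_Ncl]
        rcases hz with ⟨-, h⟩ | ⟨c, hc, rfl⟩
        · exact h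
        · rw [Finset.mem_erase, hAT, Finset.mem_filter] at hc
          exact cl_comm.1 (hfb c hc.2.1 b hb (Ne.symm hc.1))
      have h2 : Disjoint (S.filter (fun c => Cl G b c)) ((AT.erase b).image f) := by
        rw [Finset.disjoint_left]
        intro z hz1 hz2
        rw [Finset.mem_filter] at hz1
        rw [Finset.mem_image] at hz2
        obtain ⟨c, hc, rfl⟩ := hz2
        rw [Finset.mem_erase, hAT, Finset.mem_filter] at hc
        exact hc.2.2 hz1.1
      have h3 := Finset.card_le_card h1
      rw [Finset.card_union_of_disjoint h2, Finset.card_image_of_injOn] at h3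
      · have h4 := Finset.card_filter_add_card_filter_not (s := S) (fun c => Cl G b c)
        have h5 := hdeg b hb
        omega
      · intro x hx y hy hxy
        have hx' : x ∈ S := by
          have := Finset.mem_of_mem_erase (Finset.mem_coe.1 hx)
          rw [hAT, Finset.mem_filter] at this
          exact this.1
        have hy' : y ∈ S := by
          have := Finset.mem_of_mem_erase (Finset.mem_coe.1 hy)
          rw [hAT, Finset.mem_filter] at this
          exact this.1
        exact hinj hx' hy' hxy
    have hnon : ∀ a ∈ AS, ∀ c ∈ S, ¬ Cl G (f a) c → c = a := by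
      intro a ha c hc h
      rw [hAS, Finset.mem_filter] at ha
      by_contra hne
      exact h (hfb a ha.1 c hc hne)
    have hone : ∀ a ∈ AS, (AT.erase (f a)).card ≤ 1 := by
      intro a ha
      have ha' := ha
      rw [hAS, Finset.mem_filter] at ha'
      refine (hcount (f a) ha'.2).trans ?_
      rw [Finset.card_le_one]
      intro x hx y hy
      rw [Finset.mem_filter] at hx hy
      rw [hnon a ha x hx.1 hx.2, hnon a ha y hy.1 hy.2]
    have hff : ∀ a ∈ AS, f a ∈ AS → f (f a) = a := by
      intro a ha hfa'
      have h1 := hfa'
      rw [hAS, Finset.mem_filter] at h1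
      exact hnon a ha _ h1.2 (fun h => hfa (f a) h1.1 (cl_comm.1 h))
    rcases Finset.eq_empty_or_nonempty AS with hemp | ⟨a0, ha0⟩
    · -- S is independent
      have hallT : ∀ a ∈ S, f a ∉ S := by
        intro a ha h
        have : a ∈ AS := by
          rw [hAS, Finset.mem_filter]
          exact ⟨ha, h⟩
        rw [hemp] at this
        simp at this
      have hATS : AT = S := by
        rw [hAT, Finset.filter_true_of_mem hallT]
      have hNb : ∀ b ∈ S, ∀ z, Cl G b z → z = b ∨ ∃ d ∈ S, z = f d := by
        intro b hb
        have h1 : insert b ((S.erase b).image f) ⊆ Ncl G b := by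
          intro z hz
          rw [Finset.mem_insert, Finset.mem_image] at hz
          rw [mem_Ncl]
          rcases hz with rfl | ⟨c, hc, rfl⟩
          · exact cl_refl G z
          · rw [Finset.mem_erase] at hc
            exact cl_comm.1 (hfb c hc.2 b hb (Ne.symm hc.1))
        have h2 : insert b ((S.erase b).image f) = Ncl G b := by
          apply Finset.eq_of_subset_of_card_le h1
          rw [Finset.card_insert_of_notMem, Finset.card_image_of_injOn,
            Finset.card_erase_of_mem hb, hS]
          · exact hdeg b hb
          · intro x hx y hy hxy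
            exact hinj (Finset.mem_of_mem_erase (Finset.mem_coe.1 hx))
              (Finset.mem_of_mem_erase (Finset.mem_coe.1 hy)) hxy
          · intro h
            rw [Finset.mem_image] at h
            obtain ⟨c, hc, hcb⟩ := h
            exact hallT c (Finset.mem_of_mem_erase hc) (hcb ▸ hb)
        intro z hz
        rw [← mem_Ncl, ← h2, Finset.mem_insert, Finset.mem_image] at hz
        rcases hz with h | ⟨c, hc, h⟩
        · exact Or.inl h
        · exact Or.inr ⟨c, Finset.mem_of_mem_erase hc, h.symm⟩
      have hZ : ∀ a ∈ S, ∀ b ∈ S, a ≠ b → ∀ z, Prv G a z b → z = f b := by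
        intro a ha b hb hab z hz
        have hzS := F1 a ha z b hz
        obtain ⟨c, hc⟩ : ((S.erase a).erase b).Nonempty := by
          rw [← Finset.card_pos, Finset.card_erase_of_mem
            (Finset.mem_erase.2 ⟨Ne.symm hab, hb⟩), Finset.card_erase_of_mem ha, hS]
          omega
        rw [Finset.mem_erase, Finset.mem_erase] at hc
        obtain ⟨hcb, hca, hcS⟩ := hc
        have hac : ¬ Cl G a c := by
          intro h
          rcases hNb a ha c h with h1 | ⟨d, hd, h1⟩
          · exact hca h1
          · exact hallT d hd (h1 ▸ hcS)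
        have hzc : Cl G z c := by
          rcases hz.1 c hcb with h | h
          · exact absurd h hac
          · exact h
        rcases hNb c hcS z (cl_comm.1 hzc) with h | ⟨d, hd, h⟩
        · exact absurd (h ▸ hcS) hzS
        · by_cases hdb : d = b
          · rw [h, hdb]
          · exfalso
            have := hfb d hd b hb (Ne.symm hdb)
            rw [← h] at this
            exact hz.2.2 this
      have hind : ∀ a ∈ S, ∀ b ∈ S, a ≠ b → ¬ G.Adj a b := by
        intro a ha b hb hab h
        rcases hNb a ha b (Or.inr h) with h1 | ⟨d, hd, h1⟩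
        · exact hab h1.symm
        · exact hallT d hd (h1 ▸ hb)
      have hW : ∀ a ∈ S, ∀ b ∈ S, a ≠ b → Cl G (f a) (f b) := by
        intro a ha b hb hab
        have key : ∀ a ∈ S, ∀ b ∈ S, a ≠ b → ∀ z, Prv G a z b → Cl G (f b) (f a) := by
          intro a ha b hb hab z hz
          have h1 := hZ a ha b hb hab z hz
          subst h1
          rcases hz.1 (f a) (fun h => hallT a ha (h ▸ hb)) with h | h
          · exact absurd (cl_comm.1 h) (hfa a ha)
          · exact h
        obtain ⟨z, hz | hz⟩ := hcrit a b hab (hind a ha b hb hab)
        · exact cl_comm.1 (key a ha b hb hab z hz)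
        · exact key b hb a ha (Ne.symm hab) z hz
      have hfin : ∀ a ∈ S, ∀ b ∈ S, a ≠ b → ∀ z, ¬ Prv G a z b := by
        intro a ha b hb hab z hz
        have h1 := hZ a ha b hb hab z hz
        subst h1
        obtain ⟨t, ht1, ht2⟩ := hdom (f b) b
        have htb : t ≠ b := fun h => ht2 (h ▸ cl_refl G b)
        rcases hz.1 t htb with h | h
        · rcases hNb a ha t h with h1 | ⟨d, hd, h1⟩
          · rw [h1] at ht1
            exact ht1 (hfb b hb a ha hab)
          · by_cases hdb : d = b
            · rw [h1, hdb] at ht1
              exact ht1 (cl_refl G _)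
            · rw [h1] at ht1
              exact ht1 (hW b hb d hd (Ne.symm hdb))
        · exact ht1 h
      obtain ⟨a, ha⟩ := hSne
      obtain ⟨b, hb⟩ : (S.erase a).Nonempty := by
        rw [← Finset.card_pos, Finset.card_erase_of_mem ha, hS]
        omega
      rw [Finset.mem_erase] at hb
      obtain ⟨z, hz | hz⟩ := hcrit a b (Ne.symm hb.1) (hind a ha b hb.2 (Ne.symm hb.1))
      · exact hfin a ha b hb.2 (Ne.symm hb.1) z hz
      · exact hfin b hb.2 a ha hb.1 z hz
    · -- AS nonempty
      have hAT2 : AT.card ≤ 2 := by
        have h1 := hone a0 ha0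
        have h2 := Finset.pred_card_le_card_erase (s := AT) (a := f a0)
        omega
      rcases Nat.lt_or_ge AT.card 2 with hlt | hge
      · -- |AT| ≤ 1
        have hATp : ∃ p, AT ⊆ {p} := by
          have h1 : AT.card ≤ 1 := by omega
          rcases Finset.eq_empty_or_nonempty AT with h | ⟨p, hp⟩
          · exact ⟨a0, by rw [h]; exact Finset.empty_subset _⟩
          · refine ⟨p, fun x hx => ?_⟩
            rw [Finset.mem_singleton]
            exact Finset.card_le_one.1 h1 x hx p hp
        obtain ⟨p, hp⟩ := hATp
        have hfAS : ∀ a ∈ AS, f a ≠ p → f a ∈ AS := by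
          intro a ha hne
          have ha' := ha
          rw [hAS, Finset.mem_filter] at ha'
          rw [hAS, Finset.mem_filter]
          refine ⟨ha'.2, ?_⟩
          by_contra hcon
          have : f a ∈ AT := by
            rw [hAT, Finset.mem_filter]
            exact ⟨ha'.2, hcon⟩
          exact hne (Finset.mem_singleton.1 (hp this))
        have hfne : ∀ a ∈ AS, f a ≠ a := by
          intro a ha h
          have ha' := ha
          rw [hAS, Finset.mem_filter] at ha'
          apply hfa a ha'.1
          rw [h]
          exact cl_refl G a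
        rcases Nat.eq_zero_or_pos AT.card with h0 | h0
        · -- AT empty
          have hemp : AT = ∅ := Finset.card_eq_zero.1 h0
          have hall : ∀ a ∈ AS, f a ∈ AS := by
            intro a ha
            have ha' := ha
            rw [hAS, Finset.mem_filter] at ha'
            rw [hAS, Finset.mem_filter]
            refine ⟨ha'.2, ?_⟩
            by_contra hcon
            have : f a ∈ AT := by
              rw [hAT, Finset.mem_filter]
              exact ⟨ha'.2, hcon⟩
            rw [hemp] at this
            simp at this
          have h1 := even_card_of_invol AS f hall (fun a ha => hff a ha (hall a ha)) hfne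
          rw [Nat.even_iff] at h1 hre
          omega
        · have hAT1 : AT.card = 1 := by omega
          have hpAT : p ∈ AT := by
            obtain ⟨q, hq⟩ := Finset.card_pos.1 h0
            have := Finset.mem_singleton.1 (hp hq)
            rwa [this] at hq
          have hpS : p ∈ S := by
            rw [hAT, Finset.mem_filter] at hpAT
            exact hpAT.1
          have hpnAS : p ∉ AS := by
            intro h
            rw [hAT, Finset.mem_filter] at hpAT
            rw [hAS, Finset.mem_filter] at h
            exact hpAT.2 h.2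
          by_cases hex : ∃ a1 ∈ AS, f a1 = p
          · obtain ⟨a1, ha1, hfa1⟩ := hex
            have ha1S : a1 ∈ S := by
              rw [hAS, Finset.mem_filter] at ha1
              exact ha1.1
            have hfAS' : ∀ a ∈ AS.erase a1, f a ∈ AS.erase a1 := by
              intro a ha
              rw [Finset.mem_erase] at ha
              have haS : a ∈ S := by
                have := ha.2
                rw [hAS, Finset.mem_filter] at this
                exact this.1
              have h1 : f a ≠ p := by
                intro h
                exact ha.1 (hinj haS ha1S (h.trans hfa1.symm))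
              have h2 := hfAS a ha.2 h1
              rw [Finset.mem_erase]
              refine ⟨?_, h2⟩
              intro h3
              have h4 := hff a ha.2 h2
              rw [h3, hfa1] at h4
              rw [h4] at hpnAS
              exact hpnAS ha.2
            have h1 := even_card_of_invol (AS.erase a1) f hfAS'
              (fun a ha => hff a (Finset.mem_of_mem_erase ha)
                (Finset.mem_of_mem_erase (hfAS' a ha)))
              (fun a ha => hfne a (Finset.mem_of_mem_erase ha))
            rw [Finset.card_erase_of_mem ha1] at h1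
            have h2 : 0 < AS.card := Finset.card_pos.2 ⟨a1, ha1⟩
            rw [Nat.even_iff] at h1 hre
            omega
          · push Not at hex
            obtain ⟨b, hb, hpb⟩ := hU p hpS
            have hbp : b ≠ p := fun h => hpb (h ▸ cl_refl G b)
            have hbAS : b ∈ AS := by
              rw [hAS, Finset.mem_filter]
              refine ⟨hb, ?_⟩
              by_contra hcon
              have : b ∈ AT := by
                rw [hAT, Finset.mem_filter]
                exact ⟨hb, hcon⟩
              exact hbp (Finset.mem_singleton.1 (hp this))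
            have h1 := hfAS b hbAS (hex b hbAS)
            have h2 := hff b hbAS h1
            have h3 := hnon (f b) h1 p hpS (by
              rw [h2]
              exact fun h => hpb (cl_comm.1 h))
            exact hex b hbAS h3.symm
      · -- |AT| = 2
        have hAT22 : AT.card = 2 := by omega
        have hmap : ∀ a ∈ AS, f a ∈ AT := by
          intro a ha
          by_contra hcon
          have h1 := hone a ha
          rw [Finset.erase_eq_of_notMem hcon] at h1
          omega
        have hcard : AS.card ≤ AT.card := by
          apply Finset.card_le_card_of_injOn f hmap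
          intro x hx y hy hxy
          have hx' : x ∈ S := by
            have := Finset.mem_coe.1 hx
            rw [hAS, Finset.mem_filter] at this
            exact this.1
          have hy' : y ∈ S := by
            have := Finset.mem_coe.1 hy
            rw [hAS, Finset.mem_filter] at this
            exact this.1
          exact hinj hx' hy' hxy
        omega

end Pool.Agent.X7.ThreeCrit
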